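import Pool.Agent.N566.VV.Defs3

/-!
Project VV, part 19: the value of the closure of a (1,1)-tangle.
-/

set_option autoImplicit false

namespace Pool.Agent.N348.VV

open Pool.Agent.H835R2.Knot
open Pool.Agent.H550R3.Jones (br brf Adm crossP crossN gen rep tail Gen)
open Pool.Agent.N566.VV
open Finset Filter Topology

lemma brf_ne' {N : ℕ} {v : ℂ} (h : Adm N v) {j : ℕ} (hj : j < N) : brf v j ≠ 0 := by
  unfold brf
  refine Finset.prod_ne_zero_iff.2 fun i hi => ?_
  have h1 := h.2 (i + 1) (by omega) (by have := Finset.mem_range.1 hi; omega)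
  push_cast at h1
  exact h1

lemma kap_ratio {N : ℕ} (hN : Odd N) {v : ℂ} (h : Adm N v) (x : Fin N) :
    (kap N v (Fin.rev x : Fin N))⁻¹ * kap N v x = v ^ ((N : ℤ) - 1 - 2 * (x : ℕ)) := by
  have hx := x.2
  have hr : ((Fin.rev x : Fin N) : ℕ) = N - 1 - x := by rw [Fin.val_rev]; omega
  have hb1 := brf_ne' h hx
  have hb2 : brf v (N - 1 - (x : ℕ)) ≠ 0 := brf_ne' h (by omega)
  have hb3 : brf v (N - 1) ≠ 0 := brf_ne' h (by omega)
  have hv := h.1
  have hsub : N - 1 - (N - 1 - (x : ℕ)) = x := by omega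
  have hs : (-1 : ℂ) ^ (N - 1 - (x : ℕ)) = (-1) ^ (x : ℕ) := by
    obtain ⟨k, hk⟩ := hN
    have h1 : (-1 : ℂ) ^ (N - 1 - (x : ℕ)) * (-1) ^ (x : ℕ) = 1 := by
      rw [← pow_add]
      have h2 : N - 1 - (x : ℕ) + x = 2 * k := by omega
      rw [h2, pow_mul]
      norm_num
    have h3 : (-1 : ℂ) ^ (x : ℕ) * (-1) ^ (x : ℕ) = 1 := by
      rw [← mul_pow]
      norm_num
    calc (-1 : ℂ) ^ (N - 1 - (x : ℕ)) = (-1 : ℂ) ^ (N - 1 - (x : ℕ)) *
          ((-1 : ℂ) ^ (x : ℕ) * (-1) ^ (x : ℕ)) := by rw [h3, mul_one]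
      _ = _ := by rw [← mul_assoc, h1, one_mul]
  have hcast : ((N - 1 - (x : ℕ) : ℕ) : ℤ) = (N : ℤ) - 1 - (x : ℕ) := by omega
  have hv1 : v ^ (((N : ℤ) - 1 - (x : ℕ)) * ((N : ℤ) - 2 - ((N : ℤ) - 1 - (x : ℕ)))) ≠ 0 :=
    zpow_ne_zero _ hv
  have hz : v ^ (((x : ℕ) : ℤ) * ((N : ℤ) - 2 - (x : ℕ))) =
      v ^ (((N : ℤ) - 1 - (x : ℕ)) * ((N : ℤ) - 2 - ((N : ℤ) - 1 - (x : ℕ)))) *
        v ^ ((N : ℤ) - 1 - 2 * (x : ℕ)) := by
    rw [← zpow_add₀ hv]
    congr 1
    ring
  have hm : (-1 : ℂ) ^ (x : ℕ) ≠ 0 := pow_ne_zero _ (by norm_num)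
  unfold kap
  rw [hr, hsub, hs, hcast, hz]
  field_simp
theorem foldl_none (T : List Pc) :
    T.foldl (fun n P => n.bind P.strands) (none : Option ℕ) = none := by
  induction T with
  | nil => rfl
  | cons P T ih => exact ih

theorem run_eq (h2 : S_LST) (N : ℕ) (v : ℂ) (T : List Pc) : ∀ (n n' : ℕ),
    T.foldl (fun n P => n.bind P.strands) (some n) = some n' →
    ∀ (f : F (Fin N)) (G : Fin N → List (Fin N) → ℂ),
      (∀ σ, f σ = G (σ n) ((List.range n).map σ)) →
      ∀ σ, runF N v T f σ = runL N v T (G (σ n')) ((List.range n').map σ) := by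
  induction T with
  | nil =>
    intro n n' hn f G hf σ
    have h3 : n = n' := Option.some.inj hn
    subst h3
    exact hf σ
  | cons P T ih =>
    intro n n' hn f G hf σ
    have hn' : T.foldl (fun n P => n.bind P.strands) (P.strands n) = some n' := hn
    rcases hm : P.strands n with _ | m
    · rw [hm, foldl_none] at hn'
      exact absurd hn' (by simp)
    · rw [hm] at hn'
      exact ih m n' hn' (P.fn N v f) (fun y => P.act N v (G y))
        (fun τ => h2 N v P n m hm f G hf τ) σ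

theorem act_smul (N : ℕ) (v : ℂ) (P : Pc) (c : ℂ) (f : List (Fin N) → ℂ) :
    P.act N v (fun s => c * f s) = fun s => c * P.act N v f s := by
  funext s
  cases P with
  | cup i =>
    simp only [Pc.act]
    split
    · ring
    · ring
  | cap i =>
    simp only [Pc.act]
    rw [Finset.mul_sum]
    exact Finset.sum_congr rfl fun p _ => by ring
  | tw i b m =>
    simp only [Pc.act]
    split
    · rw [Finset.mul_sum]
      exact Finset.sum_congr rfl fun p _ => by ring
    · ring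

theorem runL_smul (N : ℕ) (v : ℂ) (T : List Pc) (c : ℂ) : ∀ f : List (Fin N) → ℂ,
    runL N v T (fun s => c * f s) = fun s => c * runL N v T f s := by
  induction T with
  | nil =>
    intro f
    rfl
  | cons P T ih =>
    intro f
    have h1 := ih (P.act N v f)
    rw [← act_smul] at h1
    exact h1

theorem s_open (h1 : S_FRM) (h2 : S_LST) : S_OPEN := by
  intro N hN T D hT hD
  obtain ⟨e, he⟩ := h1 N hN T D hD
  refine ⟨e, fun v hv σ => ?_⟩
  rw [he v hv σ]
  congr 1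
  unfold Bl
  refine Finset.sum_congr rfl fun x _ => ?_
  have h3 := run_eq h2 N v T 1 1 hT (Dl (datJ N v) 0 fun _ => 1)
    (fun y s => kap N v (Fin.rev y : Fin N) * (if s = [Fin.rev y] then 1 else 0)) (by
      intro τ
      have e1 : (List.range 1).map τ = [τ 0] := rfl
      rw [e1]
      show (if τ (0 + 1) = Fin.rev (τ 0) then kap N v (τ 0 : Fin N) * 1 else 0) =
        kap N v (Fin.rev (τ 1) : Fin N) * (if [τ 0] = [Fin.rev (τ 1)] then 1 else 0)
      by_cases h : τ 1 = Fin.rev (τ 0)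
      · rw [if_pos h, h, Fin.rev_rev, if_pos rfl]
      · have h4 : ¬ [τ 0] = [Fin.rev (τ 1)] := by
          intro h5
          apply h
          have h6 : τ 0 = Fin.rev (τ 1) := by simpa using h5
          rw [h6, Fin.rev_rev]
        rw [if_neg h, if_neg h4, mul_zero])
    (insS 0 x (Fin.rev x) σ)
  have e2 : (List.range 1).map (insS 0 x (Fin.rev x) σ) = [x] := rfl
  have e3 : insS 0 x (Fin.rev x) σ 1 = Fin.rev x := rfl
  rw [e2, e3, Fin.rev_rev, runL_smul] at h3
  show (kap N v (Fin.rev x : Fin N))⁻¹ *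
    runF N v T (Dl (datJ N v) 0 fun _ => 1) (insS 0 x (Fin.rev x) σ) = _
  rw [h3, ← kap_ratio hN hv x, mul_assoc]

end Pool.Agent.N348.VV
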